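import Pool.Agent.Q281.AD.St

/-!
# Project AD, job CLS: restrictions of automatic sequences to classes
-/

set_option autoImplicit false

namespace Pool.Agent.Q124.AD

open Finset
open Pool.Agent.Q281.AD (kernel2 IsAutomatic J_CLS)

/-- **Job CLS.** -/
theorem cls : J_CLS := by
  intro b β ρ hb
  unfold IsAutomatic at hb ⊢
  refine ((hb.union (Set.finite_singleton (fun _ => (0 : ZMod 2)))).union
    (((range β ×ˢ range (2 ^ β)).finite_toSet).image (fun (x : ℕ × ℕ) (n : ℕ) =>
      (fun n => if n % 2 ^ β = ρ % 2 ^ β then b n else 0) (2 ^ x.1 * n + x.2)))).subset ?_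
  rintro s ⟨k, r, hr, rfl⟩
  by_cases hk : β ≤ k
  · left
    have h1 : ∀ n, (2 ^ k * n + r) % 2 ^ β = r % 2 ^ β := by
      intro n
      obtain ⟨c, rfl⟩ := Nat.exists_eq_add_of_le hk
      rw [pow_add, mul_assoc, Nat.mul_add_mod]
    by_cases hr2 : r % 2 ^ β = ρ % 2 ^ β
    · left
      refine ⟨k, r, hr, ?_⟩
      funext n
      simp only [h1, if_pos hr2]
    · right
      rw [Set.mem_singleton_iff]
      funext n
      simp only [h1, if_neg hr2]
  · right
    refine ⟨(k, r), ?_, rfl⟩
    rw [Finset.mem_coe, Finset.mem_product, Finset.mem_range, Finset.mem_range]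
    exact ⟨not_le.1 hk, hr.trans_le (Nat.pow_le_pow_right two_pos (by omega))⟩

end Pool.Agent.Q124.AD
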