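import Pool.Agent.Q281.AD.St
import Pool.Agent.H397R2.PP.A

/-!
# Project AD, job ORE: a relation for the generating function of an automatic sequence
-/

set_option autoImplicit false

namespace Pool.Agent.Q124.AD.Ore

open Finset PowerSeries
open Pool.Agent.Q281.AD (kernel2 IsAutomatic J_ORE Rel)

theorem pow4 (i : ℕ) (f : (ZMod 2)⟦X⟧) : f ^ (4 ^ i) = PowerSeries.expand (4 ^ i) (by positivity) f :=
  Pool.Agent.H397R2.PP.pow_eq_expand' (4 ^ i) (2 * i) (by positivity) (by rw [pow_mul]; norm_num) f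

theorem coeff_pow4 (i n : ℕ) (f : (ZMod 2)⟦X⟧) :
    coeff n (f ^ (4 ^ i)) = if 4 ^ i ∣ n then coeff (n / 4 ^ i) f else 0 := by
  rw [pow4]
  split_ifs with h
  · obtain ⟨c, rfl⟩ := h
    rw [coeff_expand_mul, Nat.mul_div_cancel_left _ (by positivity)]
  · exact coeff_expand_of_not_dvd _ _ _ h

/-- the decomposition into four parts -/
theorem mk_split (s : ℕ → ZMod 2) : PowerSeries.mk s =
    ∑ e ∈ range 4, (X : (ZMod 2)⟦X⟧) ^ e * (PowerSeries.mk fun n => s (4 * n + e)) ^ 4 := by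
  ext n
  rw [map_sum, coeff_mk]
  have h : ∀ e ∈ range 4, coeff n ((X : (ZMod 2)⟦X⟧) ^ e * (PowerSeries.mk fun n => s (4 * n + e)) ^ 4) =
      if n % 4 = e then s n else 0 := by
    intro e he
    rw [Finset.mem_range] at he
    have h4 := coeff_pow4 1 (n - e) (PowerSeries.mk fun n => s (4 * n + e))
    rw [pow_one] at h4
    rw [coeff_X_pow_mul', h4, coeff_mk]
    by_cases h1 : n % 4 = e
    · rw [if_pos h1, if_pos (by omega), if_pos (by omega)]
      congr 1
      omega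
    · rw [if_neg h1]
      by_cases h2 : e ≤ n
      · rw [if_pos h2, if_neg (by omega)]
      · rw [if_neg h2]
  rw [Finset.sum_congr rfl h, Finset.sum_ite_eq, if_pos (Finset.mem_range.2 (Nat.mod_lt _ (by norm_num)))]

theorem mk_split_pow (s : ℕ → ZMod 2) (i : ℕ) : (PowerSeries.mk s) ^ (4 ^ i) =
    ∑ e ∈ range 4, (Polynomial.X ^ (e * 4 ^ i) : Polynomial (ZMod 2)) •
      (PowerSeries.mk fun n => s (4 * n + e)) ^ (4 ^ (i + 1)) := by
  conv_lhs => rw [mk_split s]
  rw [pow4, map_sum]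
  refine Finset.sum_congr rfl fun e _ => ?_
  rw [← pow4, mul_pow, ← pow_mul, ← pow_mul, Algebra.smul_def, algebraMap_apply', Algebra.algebraMap_self,
    PowerSeries.map_id, Polynomial.coe_pow, Polynomial.coe_X, pow_succ']
  rfl

theorem kernel_step {b s : ℕ → ZMod 2} (hs : s ∈ kernel2 b) {e : ℕ} (he : e < 4) :
    (fun n => s (4 * n + e)) ∈ kernel2 b := by
  obtain ⟨k, r, hr, rfl⟩ := hs
  refine ⟨k + 2, 2 ^ k * e + r, ?_, ?_⟩
  · rw [pow_add]
    have : 2 ^ k * e + r < 2 ^ k * (e + 1) := by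
      rw [Nat.mul_succ]
      omega
    exact this.trans_le (Nat.mul_le_mul_left _ (by omega))
  · funext n
    show b (2 ^ k * (4 * n + e) + r) = b (2 ^ (k + 2) * n + (2 ^ k * e + r))
    congr 1
    ring

/-- the power series relation -/
theorem exists_rel (b : ℕ → ZMod 2) (hb : IsAutomatic b) : ∃ (m : ℕ) (c : ℕ → Polynomial (ZMod 2)),
    (∃ i ≤ m, c i ≠ 0) ∧ ∑ i ∈ range (m + 1), c i • (PowerSeries.mk b) ^ (4 ^ i) = 0 := by
  classical
  have hfin : (kernel2 b).Finite := hb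
  obtain ⟨K, hK⟩ : ∃ K : Finset (ℕ → ZMod 2), ∀ s, s ∈ K ↔ s ∈ kernel2 b :=
    ⟨hfin.toFinset, fun s => hfin.mem_toFinset⟩
  have hbK : b ∈ kernel2 b := ⟨0, 0, by norm_num, by funext n; simp⟩
  obtain ⟨m, hm⟩ : ∃ m, m = K.card := ⟨_, rfl⟩
  obtain ⟨W, hW⟩ : ∃ W : Finset (ZMod 2)⟦X⟧, W = K.image fun s => (PowerSeries.mk s) ^ (4 ^ m) := ⟨_, rfl⟩
  have hspan : ∀ d i : ℕ, i + d = m → ∀ s ∈ kernel2 b,
      (PowerSeries.mk s) ^ (4 ^ i) ∈ Submodule.span (Polynomial (ZMod 2)) (W : Set (ZMod 2)⟦X⟧) := by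
    intro d
    induction d with
    | zero =>
      intro i hi s hs
      rw [add_zero] at hi
      rw [hi]
      refine Submodule.subset_span ?_
      rw [hW, Finset.mem_coe, Finset.mem_image]
      exact ⟨s, (hK s).2 hs, rfl⟩
    | succ d ih =>
      intro i hi s hs
      rw [mk_split_pow]
      refine Submodule.sum_mem _ fun e he => Submodule.smul_mem _ _ ?_
      exact ih (i + 1) (by omega) _ (kernel_step hs (Finset.mem_range.1 he))
  have hnot : ¬ LinearIndependent (Polynomial (ZMod 2)) (fun i : Fin (m + 1) => (PowerSeries.mk b) ^ (4 ^ (i : ℕ))) := by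
    intro hli
    have h1 := linearIndependent_le_span' _ hli (W : Set (ZMod 2)⟦X⟧) (by
      rintro _ ⟨i, rfl⟩
      exact hspan (m - i) i (by omega) b hbK)
    rw [Cardinal.mk_fin] at h1
    have h2 : m + 1 ≤ Fintype.card (W : Set (ZMod 2)⟦X⟧) := by exact_mod_cast h1
    have h3 : Fintype.card (W : Set (ZMod 2)⟦X⟧) = W.card := by simp
    have h4 : W.card ≤ m := by
      rw [hW, hm]
      exact Finset.card_image_le
    omega
  rw [Fintype.not_linearIndependent_iff] at hnot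
  obtain ⟨g, hg, i, hi⟩ := hnot
  refine ⟨m, fun i => if h : i < m + 1 then g ⟨i, h⟩ else 0, ⟨i, by omega, ?_⟩, ?_⟩
  · simp only [i.2, dif_pos]
    exact hi
  · rw [← hg, ← Fin.sum_univ_eq_sum_range (fun i => (if h : i < m + 1 then g ⟨i, h⟩ else 0) •
      (PowerSeries.mk b) ^ (4 ^ i))]
    refine Finset.sum_congr rfl fun j _ => ?_
    simp only [j.2, dif_pos]

theorem coeff_smul (b : ℕ → ZMod 2) (c : Polynomial (ZMod 2)) (i n : ℕ) :
    coeff n (c • (PowerSeries.mk b) ^ (4 ^ i)) =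
      ∑ a ∈ c.support.filter (fun a => a ≤ n ∧ 4 ^ i ∣ n - a), b ((n - a) / 4 ^ i) := by
  have hone : ∀ a ∈ c.support, c.coeff a = 1 := by
    intro a ha
    have h := Polynomial.mem_support_iff.1 ha
    generalize c.coeff a = t at h
    revert h
    revert t
    decide
  rw [Algebra.smul_def, algebraMap_apply', Algebra.algebraMap_self, PowerSeries.map_id]
  rw [id_eq]
  conv_lhs => rw [c.as_sum_support]
  have h2 : ((∑ a ∈ c.support, Polynomial.monomial a (c.coeff a) : Polynomial (ZMod 2)) : (ZMod 2)⟦X⟧) =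
      ∑ a ∈ c.support, (X : (ZMod 2)⟦X⟧) ^ a := by
    have h3 : ∑ a ∈ c.support, Polynomial.monomial a (c.coeff a) = ∑ a ∈ c.support, (Polynomial.X : Polynomial (ZMod 2)) ^ a := by
      refine Finset.sum_congr rfl fun a ha => ?_
      rw [hone a ha, ← Polynomial.X_pow_eq_monomial]
    rw [h3]
    change Polynomial.coeToPowerSeries.ringHom (∑ a ∈ c.support, (Polynomial.X : Polynomial (ZMod 2)) ^ a) = _
    rw [map_sum]
    refine Finset.sum_congr rfl fun a _ => ?_
    rw [map_pow]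
    simp
  rw [h2, Finset.sum_mul, map_sum, Finset.sum_filter]
  refine Finset.sum_congr rfl fun a _ => ?_
  rw [coeff_X_pow_mul', coeff_pow4, coeff_mk]
  by_cases h4 : a ≤ n
  · by_cases h5 : 4 ^ i ∣ n - a
    · rw [if_pos h4, if_pos h5, if_pos ⟨h4, h5⟩]
    · rw [if_pos h4, if_neg h5, if_neg (fun h => h5 h.2)]
  · rw [if_neg h4, if_neg (fun h => h4 h.1)]

/-- **Job ORE.** -/
theorem ore : J_ORE := by
  classical
  intro b hb
  obtain ⟨m, c, ⟨i1, hi1, hci1⟩, hc⟩ := exists_rel b hb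
  have hex : ∃ i, i ≤ m ∧ c i ≠ 0 := ⟨i1, hi1, hci1⟩
  obtain ⟨i0, hi0, hc0, hmin⟩ : ∃ i0, i0 ≤ m ∧ c i0 ≠ 0 ∧ ∀ i < i0, c i = 0 := by
    refine ⟨Nat.find hex, (Nat.find_spec hex).1, (Nat.find_spec hex).2, fun i hi => ?_⟩
    by_contra h
    exact Nat.find_min hex hi ⟨by have := (Nat.find_spec hex).1; omega, h⟩
  obtain ⟨a0, ha0⟩ := Polynomial.support_nonempty.2 hc0
  obtain ⟨q, hq⟩ : ∃ q, q = 4 ^ i0 := ⟨_, rfl⟩
  have hq0 : 0 < q := by rw [hq]; positivity
  obtain ⟨s, hs⟩ : ∃ s, s = a0 % q := ⟨_, rfl⟩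
  have hsq : s < q := by rw [hs]; exact Nat.mod_lt _ hq0
  have hinj : Function.Injective fun a' : ℕ => q * a' + s := by
    intro x y hxy
    have h : q * x + s = q * y + s := hxy
    exact Nat.eq_of_mul_eq_mul_left hq0 (by omega)
  refine ⟨m - i0, fun i => (c (i0 + i)).support.preimage (fun a' : ℕ => q * a' + s) hinj.injOn, ⟨a0 / q, ?_⟩, ?_⟩
  · rw [Finset.mem_preimage, add_zero, hs, Nat.div_add_mod]
    exact ha0
  · intro n
    have h1 := congrArg (coeff (q * n + s)) hc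
    rw [map_sum, map_zero] at h1
    simp only [coeff_smul] at h1
    have h2 : m + 1 = i0 + (m - i0 + 1) := by omega
    rw [h2, Finset.sum_range_add] at h1
    have h3 : ∑ i ∈ range i0, ∑ a ∈ (c i).support.filter (fun a => a ≤ q * n + s ∧ 4 ^ i ∣ q * n + s - a),
        b ((q * n + s - a) / 4 ^ i) = 0 := by
      refine Finset.sum_eq_zero fun i hi => ?_
      rw [hmin i (Finset.mem_range.1 hi)]
      simp
    rw [h3, zero_add] at h1
    rw [← h1]
    refine Finset.sum_congr rfl fun i _ => ?_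
    symm
    have h4 : ∀ a, a ≤ q * n + s → 4 ^ (i0 + i) ∣ q * n + s - a → ∃ a', a = q * a' + s ∧ a' ≤ n := by
      intro a h5 h6
      have h7 : q ∣ q * n + s - a := by
        refine dvd_trans ?_ h6
        rw [hq]
        exact pow_dvd_pow _ (by omega)
      obtain ⟨t, ht⟩ := h7
      have h8 : q * n + s = q * t + a := by omega
      have h9 : t ≤ n := by
        by_contra h10
        have : q * (n + 1) ≤ q * t := Nat.mul_le_mul_left _ (by omega)
        rw [Nat.mul_succ] at this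
        omega
      refine ⟨n - t, ?_, by omega⟩
      rw [Nat.mul_sub]
      have : q * t ≤ q * n := Nat.mul_le_mul_left _ h9
      omega
    have h11 : ∀ a', a' ≤ n → q * n + s - (q * a' + s) = q * (n - a') := by
      intro a' ha'
      rw [Nat.mul_sub]
      omega
    refine (Finset.sum_bij (fun a' _ => q * a' + s) ?_ ?_ ?_ ?_).symm
    · intro a' ha'
      rw [Finset.mem_filter, Finset.mem_preimage] at ha'
      rw [Finset.mem_filter]
      refine ⟨ha'.1, by have := Nat.mul_le_mul_left q ha'.2.1; omega, ?_⟩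
      rw [h11 a' ha'.2.1, pow_add, ← hq]
      exact Nat.mul_dvd_mul_left _ ha'.2.2
    · intro x _ y _ hxy
      exact hinj hxy
    · intro a ha
      rw [Finset.mem_filter] at ha
      obtain ⟨a', rfl, h12⟩ := h4 a ha.2.1 ha.2.2
      refine ⟨a', ?_, rfl⟩
      rw [Finset.mem_filter, Finset.mem_preimage]
      refine ⟨ha.1, h12, ?_⟩
      have h13 := ha.2.2
      rw [h11 a' h12, pow_add, ← hq] at h13
      exact Nat.dvd_of_mul_dvd_mul_left hq0 h13
    · intro a' ha'
      rw [Finset.mem_filter] at ha'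
      rw [h11 a' ha'.2.1, pow_add, ← hq, Nat.mul_div_mul_left _ _ hq0]

end Pool.Agent.Q124.AD.Ore

namespace Pool.Agent.Q124.AD

/-- **Job ORE.** -/
theorem ore : Pool.Agent.Q281.AD.J_ORE := Ore.ore

end Pool.Agent.Q124.AD
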