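import Pool.Agent.Q281.AD.St
import Pool.Agent.Q149.EP.Sia
import Pool.Agent.H307R2.OP.ES

/-!
# Project AD, job SIEZ: the sieve of project EP for integer shifts
-/

set_option autoImplicit false

namespace Pool.Agent.Q124.AD

open Finset Pool.Agent.Q132.EP
open Pool.Agent.Q149.EP (omega_le_log sum_inv_le sum_sq_le prime_not_dvd_prod)
open Pool.Agent.Q281.AD (S_SIEZ)

/-- the residues `x` with `Q x ≡ h (mod p)` -/
def rt (Q : ℕ) (h : ℤ) (p : ℕ) : Finset ℕ := (range p).filter (fun x : ℕ => (p : ℤ) ∣ (Q : ℤ) * x - h)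

theorem dvd_iff_zmod (Q : ℕ) (h : ℤ) (p x : ℕ) : ((p : ℤ) ∣ (Q : ℤ) * x - h) ↔ (Q : ZMod p) * x = h := by
  rw [← ZMod.intCast_zmod_eq_zero_iff_dvd]
  push_cast
  rw [sub_eq_zero]

theorem rt_unique {Q : ℕ} {h : ℤ} {p x x' : ℕ} (hp : p.Prime) (hQ : ¬ p ∣ Q)
    (h1 : (p : ℤ) ∣ (Q : ℤ) * x - h) (h2 : (p : ℤ) ∣ (Q : ℤ) * x' - h) : x % p = x' % p := by
  have := Fact.mk hp
  rw [dvd_iff_zmod] at h1 h2
  have hQ' : (Q : ZMod p) ≠ 0 := by
    rw [Ne, ZMod.natCast_eq_zero_iff]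
    exact hQ
  have h3 : (x : ZMod p) = x' := mul_left_cancel₀ hQ' (h1.trans h2.symm)
  exact (ZMod.natCast_eq_natCast_iff' x x' p).1 h3

theorem rt_card {Q : ℕ} {h : ℤ} {p : ℕ} (hp : p.Prime) (hQ : ¬ p ∣ Q) : (rt Q h p).card = 1 := by
  have := Fact.mk hp
  have hQ' : (Q : ZMod p) ≠ 0 := by
    rw [Ne, ZMod.natCast_eq_zero_iff]
    exact hQ
  apply le_antisymm
  · rw [Finset.card_le_one]
    intro a ha b hb
    unfold rt at ha hb
    rw [Finset.mem_filter, Finset.mem_range] at ha hb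
    have := rt_unique hp hQ ha.2 hb.2
    rwa [Nat.mod_eq_of_lt ha.1, Nat.mod_eq_of_lt hb.1] at this
  · rw [Nat.succ_le_iff, Finset.card_pos]
    refine ⟨((h : ZMod p) * (Q : ZMod p)⁻¹).val, ?_⟩
    unfold rt
    rw [Finset.mem_filter, Finset.mem_range]
    refine ⟨ZMod.val_lt _, ?_⟩
    rw [dvd_iff_zmod, ZMod.natCast_val, ZMod.cast_id]
    field_simp

theorem zero_mem_rt {Q : ℕ} {h : ℤ} {p : ℕ} (hp : p.Prime) : 0 ∈ rt Q h p ↔ p ∣ h.natAbs := by
  unfold rt
  rw [Finset.mem_filter, Finset.mem_range]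
  constructor
  · rintro ⟨_, h2⟩
    have h3 : (p : ℤ) ∣ -h := by simpa using h2
    rw [Int.dvd_neg] at h3
    exact Int.natCast_dvd.1 h3
  · intro h1
    refine ⟨hp.pos, ?_⟩
    have h3 : (p : ℤ) ∣ h := Int.natCast_dvd.2 h1
    simpa using h3

/-- `S_SIA` for integer shifts -/
def S_SIAZ : Prop := ∀ (B E : Finset ℕ) (h : ℤ) (U y z K D : ℕ), 64 ≤ y → h ≠ 0 →
  (∀ q ∈ B, q ∈ Q5 y z) → (∀ q ∈ E, q ∈ Q5 y z) → Disjoint B E →
  2 * (B.card + E.card) + Nat.log 2 h.natAbs ≤ y → 1 ≤ D → z ^ K ≤ D → 8 * (V y z + S5 y z) + 8 ≤ K →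
  (((range (U + 1)).filter (fun u => (∀ p ∈ Ioc y z, p.Prime → ¬ p ∣ u) ∧
      (∀ q ∈ E, (q : ℤ) ∣ ((∏ r ∈ B, r : ℕ) : ℤ) * u - h) ∧
      ∀ q ∈ Q5 y z, q ∉ B → q ∉ E → ¬ (q : ℤ) ∣ ((∏ r ∈ B, r : ℕ) : ℤ) * u - h)).card : ℝ) ≤
    50 * ((U : ℝ) / (∏ q ∈ E, (q : ℝ)) + 1) * Real.exp (-(V y z + S5 y z)) + (D : ℝ) ^ 6

/-- Task SIA for integer shifts. -/
theorem siaz : S_SIAZ := by
  intro B E h U y z K D hy hh hB hE hBE hsm hD hzD hK
  have hQ5 : ∀ q ∈ Q5 y z, q.Prime ∧ y < q ∧ q ≤ z ∧ q % 8 = 5 := by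
    intro q hq
    unfold Q5 at hq
    rw [Finset.mem_filter, Finset.mem_Ioc] at hq
    exact ⟨hq.2.1, hq.1.1, hq.1.2, hq.2.2⟩
  have hBp : ∀ q ∈ B, q.Prime := fun q hq => (hQ5 q (hB q hq)).1
  have hEp : ∀ q ∈ E, q.Prime := fun q hq => (hQ5 q (hE q hq)).1
  set Q : ℕ := ∏ r ∈ B, r with hQ
  set m : ℕ := ∏ q ∈ E, q with hm
  have hm1 : 1 ≤ m := Finset.prod_pos (fun q hq => (hEp q hq).pos)
  have hmr : (m : ℝ) = ∏ q ∈ E, (q : ℝ) := by rw [hm]; push_cast; rfl
  set P : Finset ℕ := ((Ioc y z).filter Nat.Prime) \ (B ∪ E) with hP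
  have hPm : ∀ p ∈ P, p.Prime ∧ y < p ∧ p ≤ z ∧ p ∉ B ∧ p ∉ E := by
    intro p hp
    rw [hP, Finset.mem_sdiff, Finset.mem_filter, Finset.mem_Ioc, Finset.mem_union] at hp
    push Not at hp
    exact ⟨hp.1.2, hp.1.1.1, hp.1.1.2, hp.2.1, hp.2.2⟩
  set Ω : ℕ → Finset ℕ := fun p => if p % 8 = 5 then {0} ∪ rt Q h p else {0} with hΩ
  have hΩ5 : ∀ p, p % 8 = 5 → Ω p = {0} ∪ rt Q h p := fun p hp => by simp only [hΩ, if_pos hp]
  have hΩn : ∀ p, ¬ p % 8 = 5 → Ω p = {0} := fun p hp => by simp only [hΩ, if_neg hp]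
  have hcard2 : ∀ p ∈ P, (Ω p).card ≤ 2 := by
    intro p hp
    obtain ⟨h1, -, -, h4, -⟩ := hPm p hp
    by_cases h5 : p % 8 = 5
    · rw [hΩ5 p h5]
      refine (Finset.card_union_le _ _).trans ?_
      rw [rt_card h1 (prime_not_dvd_prod hBp h1 h4), Finset.card_singleton]
    · rw [hΩn p h5, Finset.card_singleton]
      norm_num
  -- the mass
  set M : ℝ := ∑ p ∈ P, ((Ω p).card : ℝ) / p with hM
  have hy0 : (0 : ℝ) < y := by exact_mod_cast (by omega : 0 < y)
  -- the full sum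
  have hfull : V y z + S5 y z =
      ∑ p ∈ (Ioc y z).filter Nat.Prime, (1 + if p % 8 = 5 then (1 : ℝ) else 0) / p := by
    have e1 : S5 y z = ∑ p ∈ (Ioc y z).filter Nat.Prime, if p % 8 = 5 then (1 : ℝ) / p else 0 := by
      unfold S5 Q5
      rw [← Finset.filter_filter, Finset.sum_filter]
    rw [e1]
    unfold V
    rw [← Finset.sum_add_distrib]
    apply Finset.sum_congr rfl
    intro p _
    split_ifs <;> ring
  have hPsub : P ⊆ (Ioc y z).filter Nat.Prime := Finset.sdiff_subset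
  have hup : M ≤ V y z + S5 y z := by
    rw [hfull]
    refine le_trans ?_ (Finset.sum_le_sum_of_subset_of_nonneg hPsub (fun p _ _ => by positivity))
    apply Finset.sum_le_sum
    intro p hp
    apply div_le_div_of_nonneg_right _ (Nat.cast_nonneg p)
    by_cases h5 : p % 8 = 5
    · rw [if_pos h5]
      have := hcard2 p hp
      have h2 : ((Ω p).card : ℝ) ≤ 2 := by exact_mod_cast this
      linarith
    · rw [if_neg h5, hΩn p h5, Finset.card_singleton]
      norm_num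
  have hlow : V y z + S5 y z - 1 ≤ M := by
    have h1 : V y z + S5 y z = ∑ p ∈ P, (1 + if p % 8 = 5 then (1 : ℝ) else 0) / p +
        ∑ p ∈ ((Ioc y z).filter Nat.Prime) ∩ (B ∪ E), (1 + if p % 8 = 5 then (1 : ℝ) else 0) / p := by
      rw [hfull, hP]
      exact ((Finset.sum_inter_add_sum_sdiff _ _ _).symm).trans (add_comm _ _)
    have h2 : ∑ p ∈ ((Ioc y z).filter Nat.Prime) ∩ (B ∪ E),
        (1 + if p % 8 = 5 then (1 : ℝ) else 0) / p ≤ 2 * (B.card + E.card) / y := by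
      have h3 : ∑ p ∈ ((Ioc y z).filter Nat.Prime) ∩ (B ∪ E),
          (1 + if p % 8 = 5 then (1 : ℝ) else 0) / p ≤
          ∑ p ∈ ((Ioc y z).filter Nat.Prime) ∩ (B ∪ E), 2 * ((1 : ℝ) / p) := by
        apply Finset.sum_le_sum
        intro p _
        have : 2 * ((1 : ℝ) / p) = 2 / p := by ring
        rw [this]
        apply div_le_div_of_nonneg_right _ (Nat.cast_nonneg p)
        split_ifs <;> norm_num
      refine h3.trans ?_
      rw [← Finset.mul_sum]
      have h4 : ∑ p ∈ ((Ioc y z).filter Nat.Prime) ∩ (B ∪ E), (1 : ℝ) / p ≤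
          ((((Ioc y z).filter Nat.Prime) ∩ (B ∪ E)).card : ℝ) / y := by
        apply sum_inv_le (by omega)
        intro q hq
        rw [Finset.mem_inter, Finset.mem_filter, Finset.mem_Ioc] at hq
        exact hq.1.1.1
      have h5 : ((((Ioc y z).filter Nat.Prime) ∩ (B ∪ E)).card : ℝ) ≤ B.card + E.card := by
        have := (Finset.card_le_card (Finset.inter_subset_right (s₁ := (Ioc y z).filter Nat.Prime)
          (s₂ := B ∪ E))).trans (Finset.card_union_le B E)
        exact_mod_cast this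
      calc 2 * ∑ p ∈ ((Ioc y z).filter Nat.Prime) ∩ (B ∪ E), (1 : ℝ) / p
          ≤ 2 * (((((Ioc y z).filter Nat.Prime) ∩ (B ∪ E)).card : ℝ) / y) := by linarith
        _ ≤ 2 * ((B.card + E.card) / y) := by gcongr
        _ = 2 * (B.card + E.card) / y := by ring
    -- the primes of `h`
    have h6 : ∑ p ∈ P, (1 + if p % 8 = 5 then (1 : ℝ) else 0) / p ≤ M +
        ∑ p ∈ P.filter (fun p => p ∣ h.natAbs), (1 : ℝ) / p := by
      rw [Finset.sum_filter, hM, ← Finset.sum_add_distrib]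
      apply Finset.sum_le_sum
      intro p hp
      obtain ⟨g1, -, -, g4, -⟩ := hPm p hp
      have hrt := rt_card (h := h) g1 (prime_not_dvd_prod hBp g1 g4)
      by_cases h5 : p % 8 = 5
      · rw [if_pos h5, hΩ5 p h5]
        by_cases h7 : p ∣ h.natAbs
        · rw [if_pos h7, ← add_div]
          apply div_le_div_of_nonneg_right _ (Nat.cast_nonneg p)
          have : 1 ≤ ({0} ∪ rt Q h p).card := by
            rw [Nat.succ_le_iff, Finset.card_pos]
            exact ⟨0, by simp⟩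
          have : (1 : ℝ) ≤ ((({0} : Finset ℕ) ∪ rt Q h p).card : ℝ) := by exact_mod_cast this
          linarith
        · rw [if_neg h7, add_zero]
          apply div_le_div_of_nonneg_right _ (Nat.cast_nonneg p)
          rw [Finset.card_union_of_disjoint, hrt, Finset.card_singleton]
          · norm_num
          · rw [Finset.disjoint_singleton_left, zero_mem_rt g1]
            exact h7
      · rw [if_neg h5, hΩn p h5, Finset.card_singleton, add_zero]
        have : (0 : ℝ) ≤ if p ∣ h.natAbs then (1 : ℝ) / p else 0 := by split_ifs <;> positivity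
        push_cast
        linarith
    have h8 : ∑ p ∈ P.filter (fun p => p ∣ h.natAbs), (1 : ℝ) / p ≤ (Nat.log 2 h.natAbs : ℝ) / y := by
      have h9 : ∑ p ∈ P.filter (fun p => p ∣ h.natAbs), (1 : ℝ) / p ≤
          ((P.filter (fun p => p ∣ h.natAbs)).card : ℝ) / y := by
        apply sum_inv_le (by omega)
        intro q hq
        rw [Finset.mem_filter] at hq
        exact (hPm q hq.1).2.1
      refine h9.trans ?_
      apply div_le_div_of_nonneg_right _ hy0.le
      have h10 : (P.filter (fun p => p ∣ h.natAbs)).card ≤ h.natAbs.primeFactors.card := by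
        apply Finset.card_le_card
        intro q hq
        rw [Finset.mem_filter] at hq
        exact Nat.mem_primeFactors.2 ⟨(hPm q hq.1).1, hq.2, by omega⟩
      exact_mod_cast h10.trans (omega_le_log (by omega))
    have h11 : 2 * ((B.card : ℝ) + E.card) / y + (Nat.log 2 h.natAbs : ℝ) / y ≤ 1 := by
      rw [← add_div, div_le_one hy0]
      exact_mod_cast hsm
    linarith
  -- if nothing is counted
  set S : Finset ℕ := (range (U + 1)).filter (fun u => (∀ p ∈ Ioc y z, p.Prime → ¬ p ∣ u) ∧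
      (∀ q ∈ E, (q : ℤ) ∣ (Q : ℤ) * u - h) ∧
      ∀ q ∈ Q5 y z, q ∉ B → q ∉ E → ¬ (q : ℤ) ∣ (Q : ℤ) * u - h) with hS
  have hmpos : (0 : ℝ) < m := by exact_mod_cast hm1
  rw [← hmr]
  rcases S.eq_empty_or_nonempty with hS0 | ⟨a, ha⟩
  · rw [hS0, Finset.card_empty, Nat.cast_zero]
    positivity
  · rw [hS, Finset.mem_filter] at ha
    have hsv := Pool.Agent.H307R2.OP.sv m a U D z K P Ω hm1 hD
      (fun p hp => by
        obtain ⟨h1, h2, h3, h4, h5⟩ := hPm p hp
        refine ⟨h1, by omega, h3, ?_⟩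
        exact (Nat.Prime.coprime_iff_not_dvd h1).2 (prime_not_dvd_prod hEp h1 h5))
      (fun p hp => by
        refine ⟨hcard2 p hp, ?_⟩
        intro x hx
        obtain ⟨h1, -⟩ := hPm p hp
        by_cases h5 : p % 8 = 5
        · rw [hΩ5 p h5, Finset.mem_union, Finset.mem_singleton] at hx
          rcases hx with hx | hx
          · rw [hx]; exact h1.pos
          · unfold rt at hx
            rw [Finset.mem_filter, Finset.mem_range] at hx
            exact hx.1
        · rw [hΩn p h5, Finset.mem_singleton] at hx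
          rw [hx]; exact h1.pos)
      hzD (by rw [← hM]; linarith) (sum_sq_le hy (fun q hq => by
        have := hPm q hq
        rw [Finset.mem_Ioc]
        exact ⟨this.2.1, this.2.2.1⟩))
    rw [← hM] at hsv
    have hsub : S ⊆ (range (U + 1)).filter (fun u => u % m = a % m ∧ ∀ p ∈ P, u % p ∉ Ω p) := by
      intro u hu
      rw [hS, Finset.mem_filter] at hu
      rw [Finset.mem_filter]
      obtain ⟨hu1, hu2, hu3, hu4⟩ := hu
      refine ⟨hu1, ?_, ?_⟩
      · -- the class modulo `m`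
        have hmod : ∀ q ∈ E, u ≡ a [MOD q] := by
          intro q hq
          have hqp := hEp q hq
          have hqB : q ∉ B := fun h1 => (Finset.disjoint_left.1 hBE h1) hq
          exact rt_unique hqp (prime_not_dvd_prod hBp hqp hqB) (hu3 q hq) (ha.2.2.1 q hq)
        have : (m : ℤ) ∣ (a : ℤ) - u := by
          rw [hm]
          push_cast
          apply Finset.prod_dvd_of_coprime
          · intro q hq q' hq' hne
            have := (Nat.coprime_primes (hEp q hq) (hEp q' hq')).2 hne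
            exact Nat.isCoprime_iff_coprime.2 this
          · intro q hq
            exact (Nat.modEq_iff_dvd.1 (hmod q hq))
        exact Nat.modEq_iff_dvd.2 this
      · intro p hp
        obtain ⟨g1, g2, g3, g4, g5⟩ := hPm p hp
        have hpu : ¬ p ∣ u := hu2 p (Finset.mem_Ioc.2 ⟨g2, g3⟩) g1
        have h0 : u % p ≠ 0 := fun h0 => hpu (Nat.dvd_of_mod_eq_zero h0)
        by_cases h5 : p % 8 = 5
        · rw [hΩ5 p h5, Finset.mem_union, Finset.mem_singleton]
          push Not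
          refine ⟨h0, ?_⟩
          intro hmem
          unfold rt at hmem
          rw [Finset.mem_filter] at hmem
          have hq5 : p ∈ Q5 y z := by
            unfold Q5
            rw [Finset.mem_filter, Finset.mem_Ioc]
            exact ⟨⟨g2, g3⟩, g1, h5⟩
          apply hu4 p hq5 g4 g5
          have h6 := hmem.2
          rw [dvd_iff_zmod] at h6 ⊢
          rw [← h6]
          congr 1
          rw [ZMod.natCast_mod]
        · rw [hΩn p h5, Finset.mem_singleton]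
          exact h0
    have hcard : (S.card : ℝ) ≤ 16 * ((U : ℝ) / m + 1) * Real.exp (-M) + (D : ℝ) ^ 6 :=
      le_trans (by exact_mod_cast Finset.card_le_card hsub) hsv
    refine hcard.trans ?_
    have hexp : 16 * Real.exp (-M) ≤ 50 * Real.exp (-(V y z + S5 y z)) := by
      have h1 : Real.exp (-M) ≤ Real.exp (1 + -(V y z + S5 y z)) := Real.exp_le_exp.2 (by linarith)
      rw [Real.exp_add] at h1
      have h2 := Real.exp_one_lt_d9
      have h3 := Real.exp_pos (-(V y z + S5 y z))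
      nlinarith
    have h4 : 0 ≤ (U : ℝ) / m + 1 := by positivity
    nlinarith

/-- the numbers `u` for which `q ^ 2` divides `Q u - h` -/
theorem card_sq_le (Q : ℕ) (h : ℤ) (U q : ℕ) (hq : q.Prime) (hQ : ¬ q ∣ Q) :
    (((range (U + 1)).filter (fun u : ℕ => ((q ^ 2 : ℕ) : ℤ) ∣ (Q : ℤ) * u - h)).card : ℝ) ≤
      ((U : ℝ) + 1) / (q : ℝ) ^ 2 + 1 := by
  rcases ((range (U + 1)).filter (fun u : ℕ => ((q ^ 2 : ℕ) : ℤ) ∣ (Q : ℤ) * u - h)).eq_empty_or_nonempty
    with h0 | ⟨a, ha⟩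
  · rw [h0, Finset.card_empty, Nat.cast_zero]
    positivity
  · rw [Finset.mem_filter] at ha
    have hcop : IsCoprime ((q ^ 2 : ℕ) : ℤ) (Q : ℤ) := by
      rw [Nat.isCoprime_iff_coprime]
      exact ((Nat.Prime.coprime_iff_not_dvd hq).2 hQ).pow_left 2
    have hsub : (range (U + 1)).filter (fun u : ℕ => ((q ^ 2 : ℕ) : ℤ) ∣ (Q : ℤ) * u - h) ⊆
        (range (U + 1)).filter (fun u => u % (q ^ 2) = a % (q ^ 2)) := by
      intro u hu
      rw [Finset.mem_filter] at hu ⊢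
      refine ⟨hu.1, ?_⟩
      have h1 : ((q ^ 2 : ℕ) : ℤ) ∣ (Q : ℤ) * ((a : ℤ) - u) := by
        have := dvd_sub ha.2 hu.2
        have e : (Q : ℤ) * a - h - ((Q : ℤ) * u - h) = (Q : ℤ) * ((a : ℤ) - u) := by ring
        rwa [e] at this
      exact Nat.modEq_iff_dvd.2 (hcop.dvd_of_dvd_mul_left h1)
    have h2 := Pool.Agent.H307R2.OP.SV.count_class U (q ^ 2) a (Nat.pos_of_ne_zero
      (pow_ne_zero 2 hq.ne_zero))
    rw [abs_le] at h2
    have h3 : (((range (U + 1)).filter (fun u : ℕ => ((q ^ 2 : ℕ) : ℤ) ∣ (Q : ℤ) * u - h)).card : ℝ) ≤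
        (((range (U + 1)).filter (fun u => u % (q ^ 2) = a % (q ^ 2))).card : ℝ) := by
      exact_mod_cast Finset.card_le_card hsub
    have h4 := h2.2
    push_cast at h4
    linarith

/-- Task SIE. -/
theorem siez : S_SIEZ := by
  intro B h U y z K D R hy hyz hh hB hsm hD hzD hK
  have hQ5 : ∀ q ∈ Q5 y z, q.Prime ∧ y < q ∧ q ≤ z ∧ q % 8 = 5 := by
    intro q hq
    unfold Q5 at hq
    rw [Finset.mem_filter, Finset.mem_Ioc] at hq
    exact ⟨hq.2.1, hq.1.1, hq.1.2, hq.2.2⟩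
  set Q : ℕ := ∏ q ∈ B, q with hQ
  set A : Finset ℕ := Q5 y z \ B with hA
  have hAm : ∀ q ∈ A, q.Prime ∧ y < q ∧ q ≤ z ∧ q % 8 = 5 ∧ q ∈ Q5 y z ∧ q ∉ B := by
    intro q hq
    rw [hA, Finset.mem_sdiff] at hq
    have := hQ5 q hq.1
    exact ⟨this.1, this.2.1, this.2.2.1, this.2.2.2, hq.1, hq.2⟩
  have hAQ : ∀ q ∈ A, ¬ q ∣ Q := by
    intro q hq hd
    obtain ⟨h1, -, -, -, -, h6⟩ := hAm q hq
    rw [hQ, h1.prime.dvd_finsetProd_iff] at hd
    obtain ⟨q', hq', hqq⟩ := hd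
    have := (Nat.prime_dvd_prime_iff_eq h1 (hQ5 q' (hB q' hq')).1).1 hqq
    exact h6 (this ▸ hq')
  set SE : Finset ℕ → Finset ℕ := fun E => (range (U + 1)).filter
    (fun u => (∀ p ∈ Ioc y z, p.Prime → ¬ p ∣ u) ∧
      (∀ q ∈ E, (q : ℤ) ∣ ((∏ r ∈ B, r : ℕ) : ℤ) * u - h) ∧
      ∀ q ∈ Q5 y z, q ∉ B → q ∉ E → ¬ (q : ℤ) ∣ ((∏ r ∈ B, r : ℕ) : ℤ) * u - h) with hSE
  set T : Finset ℕ := (range (U + 1)).filter (fun u => u.Prime ∧ z < u ∧ 0 < (Q : ℤ) * u - h ∧
      cnt5 ((Q : ℤ) * u - h).toNat < R) with hT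
  set T1 : Finset ℕ := A.biUnion (fun q => (range (U + 1)).filter
    (fun u : ℕ => ((q ^ 2 : ℕ) : ℤ) ∣ (Q : ℤ) * u - h)) with hT1
  set T2 : Finset ℕ := (range R).biUnion (fun j => (powersetCard j A).biUnion SE) with hT2
  have hcover : T ⊆ T1 ∪ T2 := by
    intro u hu
    rw [hT, Finset.mem_filter] at hu
    obtain ⟨hu1, hu2, hu3, hu4, hu5⟩ := hu
    have hcast : (((((Q : ℤ) * u - h).toNat : ℕ)) : ℤ) = (Q : ℤ) * u - h := Int.toNat_of_nonneg hu4.le
    have hn0 : ((Q : ℤ) * u - h).toNat ≠ 0 := by omega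
    rw [Finset.mem_union]
    by_cases hsq : ∃ q ∈ A, q ^ 2 ∣ ((Q : ℤ) * u - h).toNat
    · left
      obtain ⟨q, hq, hq2⟩ := hsq
      rw [hT1, Finset.mem_biUnion]
      refine ⟨q, hq, ?_⟩
      rw [Finset.mem_filter]
      refine ⟨hu1, ?_⟩
      rw [← hcast]
      exact_mod_cast hq2
    · right
      push Not at hsq
      set E : Finset ℕ := A.filter (fun q => q ∣ ((Q : ℤ) * u - h).toNat) with hE
      have hEc : E.card < R := by
        refine lt_of_le_of_lt ?_ hu5
        unfold cnt5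
        apply Finset.card_le_card
        intro q hq
        rw [hE, Finset.mem_filter] at hq
        obtain ⟨g1, -, -, g4, -⟩ := hAm q hq.1
        rw [Finset.mem_filter, Nat.mem_primeFactors]
        exact ⟨⟨g1, hq.2, hn0⟩, hsq q hq.1, g4⟩
      rw [hT2, Finset.mem_biUnion]
      refine ⟨E.card, Finset.mem_range.2 hEc, ?_⟩
      rw [Finset.mem_biUnion]
      refine ⟨E, Finset.mem_powersetCard.2 ⟨Finset.filter_subset _ _, rfl⟩, ?_⟩
      simp only [hSE]
      rw [Finset.mem_filter]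
      refine ⟨hu1, ?_, ?_, ?_⟩
      · intro p hp hpp hpu
        have := (Nat.prime_dvd_prime_iff_eq hpp hu2).1 hpu
        rw [Finset.mem_Ioc] at hp
        omega
      · intro q hq
        rw [hE, Finset.mem_filter] at hq
        rw [← hQ, ← hcast]
        exact_mod_cast hq.2
      · intro q hq hqB hqE hd
        apply hqE
        rw [hE, Finset.mem_filter, hA, Finset.mem_sdiff]
        refine ⟨⟨hq, hqB⟩, ?_⟩
        rw [← hQ, ← hcast] at hd
        exact_mod_cast hd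
  have hy0 : (0 : ℝ) < y := by exact_mod_cast (by omega : 0 < y)
  have hAcard : A.card ≤ z - y := by
    have : A ⊆ Ioc y z := by
      intro q hq
      obtain ⟨-, g2, g3, -⟩ := hAm q hq
      exact Finset.mem_Ioc.2 ⟨g2, g3⟩
    have := Finset.card_le_card this
    rwa [Nat.card_Ioc] at this
  -- first part
  have hT1c : (T1.card : ℝ) ≤ 2 * U / y + z := by
    have h1 : (T1.card : ℝ) ≤ ∑ q ∈ A, (((U : ℝ) + 1) / (q : ℝ) ^ 2 + 1) := by
      have h2 : T1.card ≤ ∑ q ∈ A, ((range (U + 1)).filter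
          (fun u : ℕ => ((q ^ 2 : ℕ) : ℤ) ∣ (Q : ℤ) * u - h)).card := Finset.card_biUnion_le
      calc (T1.card : ℝ) ≤ ((∑ q ∈ A, ((range (U + 1)).filter
          (fun u : ℕ => ((q ^ 2 : ℕ) : ℤ) ∣ (Q : ℤ) * u - h)).card : ℕ) : ℝ) := by exact_mod_cast h2
        _ = ∑ q ∈ A, (((range (U + 1)).filter
          (fun u : ℕ => ((q ^ 2 : ℕ) : ℤ) ∣ (Q : ℤ) * u - h)).card : ℝ) := by push_cast; rfl
        _ ≤ _ := Finset.sum_le_sum (fun q hq => card_sq_le Q h U q (hAm q hq).1 (hAQ q hq))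
    refine h1.trans ?_
    rw [Finset.sum_add_distrib, Finset.sum_const, nsmul_eq_mul, mul_one]
    have h3 : ∑ q ∈ A, ((U : ℝ) + 1) / (q : ℝ) ^ 2 ≤ ((U : ℝ) + 1) * (1 / y) := by
      have h4 : ∑ q ∈ A, ((U : ℝ) + 1) / (q : ℝ) ^ 2 ≤ ∑ q ∈ Ioc y z, ((U : ℝ) + 1) / (q : ℝ) ^ 2 := by
        apply Finset.sum_le_sum_of_subset_of_nonneg
        · intro q hq
          obtain ⟨-, g2, g3, -⟩ := hAm q hq
          exact Finset.mem_Ioc.2 ⟨g2, g3⟩
        · intro i _ _; positivity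
      refine h4.trans ?_
      have h5 := sum_Ioc_inv_sq_le_sub (α := ℝ) (k := y) (n := z) (by omega) hyz
      have h6 : ∑ q ∈ Ioc y z, ((U : ℝ) + 1) / (q : ℝ) ^ 2 =
          ((U : ℝ) + 1) * ∑ q ∈ Ioc y z, ((q : ℝ) ^ 2)⁻¹ := by
        rw [Finset.mul_sum]
        apply Finset.sum_congr rfl
        intro q _
        ring
      rw [h6]
      apply mul_le_mul_of_nonneg_left _ (by positivity)
      have h7 : (0 : ℝ) ≤ (z : ℝ)⁻¹ := by positivity
      rw [one_div]
      linarith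
    have h8 : (A.card : ℝ) ≤ z - 1 := by
      have h9 : A.card + 1 ≤ z := by omega
      have : (A.card : ℝ) + 1 ≤ z := by exact_mod_cast h9
      linarith
    have h10 : 1 / (y : ℝ) ≤ 1 := by
      rw [div_le_one hy0]
      exact_mod_cast (by omega : 1 ≤ y)
    have h11 : ((U : ℝ) + 1) * (1 / y) = U / y + 1 / y := by ring
    have h12 : (0 : ℝ) ≤ U / y := by positivity
    have h13 : 2 * (U : ℝ) / y = U / y + U / y := by ring
    rw [h13]
    linarith
  -- second part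
  have hVS : 0 ≤ V y z + S5 y z := by
    unfold V S5
    apply add_nonneg <;> exact Finset.sum_nonneg (fun q _ => by positivity)
  set ex : ℝ := Real.exp (-(V y z + S5 y z)) with hex
  have hex0 : 0 < ex := Real.exp_pos _
  have hex1 : ex ≤ 1 := by rw [hex]; exact Real.exp_le_one_iff.2 (by linarith)
  have hSEc : ∀ j ∈ range R, ∀ E ∈ powersetCard j A, ((SE E).card : ℝ) ≤
      50 * U * ex * ∏ q ∈ E, (1 : ℝ) / q + (50 + (D : ℝ) ^ 6) := by
    intro j hj E hE
    rw [Finset.mem_range] at hj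
    rw [Finset.mem_powersetCard] at hE
    have h1 := siaz B E h U y z K D hy hh hB (fun q hq => (hAm q (hE.1 hq)).2.2.2.2.1)
      (by
        rw [Finset.disjoint_left]
        intro q hq hqE
        exact (hAm q (hE.1 hqE)).2.2.2.2.2 hq)
      (by rw [hE.2]; omega) hD hzD hK
    rw [← hex] at h1
    refine h1.trans ?_
    have h2 : ∏ q ∈ E, (1 : ℝ) / q = 1 / ∏ q ∈ E, (q : ℝ) := by
      rw [Finset.prod_div_distrib, Finset.prod_const_one]
    rw [h2]
    have h3 : 50 * ((U : ℝ) / (∏ q ∈ E, (q : ℝ)) + 1) * ex =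
        50 * U * ex * (1 / ∏ q ∈ E, (q : ℝ)) + 50 * ex := by ring
    rw [h3]
    linarith
  have hT2c : (T2.card : ℝ) ≤ 50 * U * ex * (∑ j ∈ range R, S5 y z ^ j / (j.factorial : ℝ)) +
      R * (z : ℝ) ^ R * (50 + (D : ℝ) ^ 6) := by
    have h1 : (T2.card : ℝ) ≤ ∑ j ∈ range R, ∑ E ∈ powersetCard j A,
        (50 * U * ex * ∏ q ∈ E, (1 : ℝ) / q + (50 + (D : ℝ) ^ 6)) := by
      have h2 : T2.card ≤ ∑ j ∈ range R, ∑ E ∈ powersetCard j A, (SE E).card :=
        Finset.card_biUnion_le.trans (Finset.sum_le_sum (fun j _ => Finset.card_biUnion_le))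
      calc (T2.card : ℝ) ≤ ((∑ j ∈ range R, ∑ E ∈ powersetCard j A, (SE E).card : ℕ) : ℝ) := by
            exact_mod_cast h2
        _ = ∑ j ∈ range R, ∑ E ∈ powersetCard j A, ((SE E).card : ℝ) := by push_cast; rfl
        _ ≤ _ := Finset.sum_le_sum (fun j hj => Finset.sum_le_sum (fun E hE => hSEc j hj E hE))
    refine h1.trans ?_
    have h3 : ∀ j ∈ range R, ∑ E ∈ powersetCard j A,
        (50 * U * ex * ∏ q ∈ E, (1 : ℝ) / q + (50 + (D : ℝ) ^ 6)) ≤
        50 * U * ex * (S5 y z ^ j / (j.factorial : ℝ)) + (z : ℝ) ^ R * (50 + (D : ℝ) ^ 6) := by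
      intro j hj
      rw [Finset.mem_range] at hj
      rw [Finset.sum_add_distrib, ← Finset.mul_sum, Finset.sum_const, nsmul_eq_mul]
      have h4 : ∑ E ∈ powersetCard j A, ∏ q ∈ E, (1 : ℝ) / q ≤ S5 y z ^ j / (j.factorial : ℝ) := by
        refine (Pool.Agent.H307R2.OP.es.up A (fun q => (1 : ℝ) / q) j (fun q _ => by positivity)).trans ?_
        apply div_le_div_of_nonneg_right _ (by positivity)
        apply pow_le_pow_left₀ (Finset.sum_nonneg (fun q _ => by positivity))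
        unfold S5
        exact Finset.sum_le_sum_of_subset_of_nonneg Finset.sdiff_subset (fun i _ _ => by positivity)
      have h5 : ((powersetCard j A).card : ℝ) ≤ (z : ℝ) ^ R := by
        rw [Finset.card_powersetCard]
        have h6 : A.card.choose j ≤ z ^ R := by
          calc A.card.choose j ≤ A.card ^ j := Nat.choose_le_pow _ _
            _ ≤ z ^ j := Nat.pow_le_pow_left (by omega) j
            _ ≤ z ^ R := Nat.pow_le_pow_right (by omega) hj.le
        exact_mod_cast h6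
      have h7 : 50 * U * ex * ∑ E ∈ powersetCard j A, ∏ q ∈ E, (1 : ℝ) / q ≤
          50 * U * ex * (S5 y z ^ j / (j.factorial : ℝ)) :=
        mul_le_mul_of_nonneg_left h4 (by positivity)
      have h8 : ((powersetCard j A).card : ℝ) * (50 + (D : ℝ) ^ 6) ≤
          (z : ℝ) ^ R * (50 + (D : ℝ) ^ 6) := mul_le_mul_of_nonneg_right h5 (by positivity)
      linarith
    refine (Finset.sum_le_sum h3).trans (le_of_eq ?_)
    rw [Finset.sum_add_distrib, ← Finset.mul_sum, Finset.sum_const, Finset.card_range, nsmul_eq_mul]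
    ring
  have hfin : (T.card : ℝ) ≤ T1.card + T2.card := by
    exact_mod_cast (Finset.card_le_card hcover).trans (Finset.card_union_le T1 T2)
  linarith

end Pool.Agent.Q124.AD
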