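import Pool.Agent.Q61.AD.Stm

/-! Jobs AD-7 and AD-8 of project AD (helper61): test functions. -/

set_option autoImplicit false

namespace Pool.Agent.Q124.AD

open MeasureTheory Set Filter Topology Pool.Agent.Q61.AD

theorem iter_per {Φ : ℝ → P → ℝ} (_ : Tst Φ) (n : ℕ) (a : P)
    (ha : ∀ t x, Φ t (x + a) = Φ t x) :
    Function.Periodic (iteratedFDeriv ℝ n (fun q : ℝ × P => Φ q.1 q.2)) ((0, a) : ℝ × P) := by
  intro q
  have h1 := iteratedFDeriv_comp_add_right' (𝕜 := ℝ) (f := fun q : ℝ × P => Φ q.1 q.2) n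
    ((0, a) : ℝ × P)
  have h2 : (fun z : ℝ × P => (fun q : ℝ × P => Φ q.1 q.2) (z + (0, a))) =
      fun q : ℝ × P => Φ q.1 q.2 := by
    funext z
    change Φ (z.1 + 0) (z.2 + a) = Φ z.1 z.2
    rw [add_zero, ha]
  rw [h2] at h1
  exact (congrFun h1 q).symm

/-- **S_TBX.** -/
theorem tbx : S_TBX := by
  intro R Φ h
  have hsm : ContDiff ℝ (⊤ : ℕ∞) (fun q : ℝ × P => Φ q.1 q.2) := h.smooth
  have hex : ∀ n : ℕ, ∃ C : ℝ, ∀ (t : ℝ) (x : P), 0 ≤ t → t ≤ R →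
      ‖iteratedFDeriv ℝ n (fun q : ℝ × P => Φ q.1 q.2) (t, x)‖ ≤ C := by
    intro n
    have hc : Continuous (iteratedFDeriv ℝ n (fun q : ℝ × P => Φ q.1 q.2)) :=
      hsm.continuous_iteratedFDeriv (by exact_mod_cast le_top)
    have hK : IsCompact (Icc (0 : ℝ) R ×ˢ (Icc (0 : ℝ) 1 ×ˢ Icc (0 : ℝ) 1)) :=
      isCompact_Icc.prod (isCompact_Icc.prod isCompact_Icc)
    obtain ⟨C, hC⟩ := hK.exists_bound_of_continuousOn hc.continuousOn
    refine ⟨C, fun t x h0 h1 => ?_⟩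
    have p1 := iter_per h n (1, 0) (fun t x => by
      have := (h.per t x.1 x.2).1
      change Φ t (x.1 + 1, x.2 + 0) = Φ t x
      rw [add_zero]
      exact this)
    have p2 := iter_per h n (0, 1) (fun t x => by
      have := (h.per t x.1 x.2).2
      change Φ t (x.1 + 0, x.2 + 1) = Φ t x
      rw [add_zero]
      exact this)
    have e1 := p1.sub_zsmul_eq (x := (t, x)) ⌊x.1⌋
    have e2 := p2.sub_zsmul_eq (x := (t, x) - ⌊x.1⌋ • ((0, (1, 0)) : ℝ × P)) ⌊x.2⌋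
    rw [← e1, ← e2]
    apply hC
    have e3 : ((t, x) - ⌊x.1⌋ • ((0, (1, 0)) : ℝ × P) - ⌊x.2⌋ • ((0, (0, 1)) : ℝ × P)) =
        (t, (Int.fract x.1, Int.fract x.2)) := by
      refine Prod.ext ?_ (Prod.ext ?_ ?_)
      · simp
      · simp
      · simp
    rw [e3]
    exact ⟨⟨h0, h1⟩, ⟨Int.fract_nonneg _, (Int.fract_lt_one _).le⟩,
      ⟨Int.fract_nonneg _, (Int.fract_lt_one _).le⟩⟩
  choose C hC using hex
  refine ⟨|C 0| + |C 1| + |C 2| + |C 3|, by positivity, h, ?_⟩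
  intro n hn t x h0 h1
  have h2 := hC n t x h0 h1
  have h3 : C n ≤ |C n| := le_abs_self _
  have a0 := abs_nonneg (C 0)
  have a1 := abs_nonneg (C 1)
  have a2 := abs_nonneg (C 2)
  have a3 := abs_nonneg (C 3)
  interval_cases n <;> linarith

section

variable {Φ : ℝ → P → ℝ}

theorem dt_eq (h : Tst Φ) (t : ℝ) (x : P) :
    dt Φ t x = fderiv ℝ (fun q : ℝ × P => Φ q.1 q.2) (t, x) (1, 0) := by
  have h1 : HasFDerivAt (fun q : ℝ × P => Φ q.1 q.2)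
      (fderiv ℝ (fun q : ℝ × P => Φ q.1 q.2) (t, x)) (t, x) :=
    ((h.smooth.differentiable (by simp)) _).hasFDerivAt
  have h2 : HasDerivAt (fun s : ℝ => ((s, x) : ℝ × P)) (1, 0) t :=
    (hasDerivAt_id t).prodMk (hasDerivAt_const t x)
  exact (h1.comp_hasDerivAt t h2).deriv

theorem dx_gen (G : ℝ × P → ℝ) (hG : Differentiable ℝ G) (t : ℝ) (x : P) :
    dx (fun y => G (t, y)) x = fderiv ℝ G (t, x) (0, (1, 0)) := by
  have h1 : HasFDerivAt G (fderiv ℝ G (t, x)) (t, x) := (hG _).hasFDerivAt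
  have h2 : HasDerivAt (fun s : ℝ => ((t, (s, x.2)) : ℝ × P)) (0, (1, 0)) x.1 :=
    (hasDerivAt_const x.1 t).prodMk ((hasDerivAt_id x.1).prodMk (hasDerivAt_const x.1 x.2))
  exact (h1.comp_hasDerivAt x.1 h2).deriv

theorem dy_gen (G : ℝ × P → ℝ) (hG : Differentiable ℝ G) (t : ℝ) (x : P) :
    dy (fun y => G (t, y)) x = fderiv ℝ G (t, x) (0, (0, 1)) := by
  have h1 : HasFDerivAt G (fderiv ℝ G (t, x)) (t, x) := (hG _).hasFDerivAt
  have h2 : HasDerivAt (fun s : ℝ => ((t, (x.1, s)) : ℝ × P)) (0, (0, 1)) x.2 :=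
    (hasDerivAt_const x.2 t).prodMk ((hasDerivAt_const x.2 x.1).prodMk (hasDerivAt_id x.2))
  exact (h1.comp_hasDerivAt x.2 h2).deriv

theorem dx_eq (h : Tst Φ) (t : ℝ) (x : P) :
    dx (Φ t) x = fderiv ℝ (fun q : ℝ × P => Φ q.1 q.2) (t, x) (0, (1, 0)) :=
  dx_gen (fun q : ℝ × P => Φ q.1 q.2) (h.smooth.differentiable (by simp)) t x

theorem dy_eq (h : Tst Φ) (t : ℝ) (x : P) :
    dy (Φ t) x = fderiv ℝ (fun q : ℝ × P => Φ q.1 q.2) (t, x) (0, (0, 1)) :=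
  dy_gen (fun q : ℝ × P => Φ q.1 q.2) (h.smooth.differentiable (by simp)) t x

theorem diff_dir (h : Tst Φ) (e : ℝ × P) :
    ContDiff ℝ 1 (fun q : ℝ × P => fderiv ℝ (fun q : ℝ × P => Φ q.1 q.2) q e) := by
  have h1 : ContDiff ℝ 1 (fderiv ℝ (fun q : ℝ × P => Φ q.1 q.2)) :=
    h.smooth.fderiv_right (by norm_cast)
  exact h1.clm_apply contDiff_const

theorem second (h : Tst Φ) (e q : ℝ × P) :
    fderiv ℝ (fun q : ℝ × P => fderiv ℝ (fun q : ℝ × P => Φ q.1 q.2) q e) q e =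
      fderiv ℝ (fderiv ℝ (fun q : ℝ × P => Φ q.1 q.2)) q e e := by
  have h1 : ContDiff ℝ 1 (fderiv ℝ (fun q : ℝ × P => Φ q.1 q.2)) :=
    h.smooth.fderiv_right (by norm_cast)
  have h2 : DifferentiableAt ℝ (fderiv ℝ (fun q : ℝ × P => Φ q.1 q.2)) q :=
    (h1.differentiable (by simp)) q
  rw [fderiv_clm_apply h2 (differentiableAt_const e)]
  simp

theorem dxx_eq (h : Tst Φ) (t : ℝ) (x : P) :
    dx (dx (Φ t)) x = fderiv ℝ (fderiv ℝ (fun q : ℝ × P => Φ q.1 q.2)) (t, x)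
      (0, (1, 0)) (0, (1, 0)) := by
  have h1 : dx (Φ t) = fun y => (fun q : ℝ × P =>
      fderiv ℝ (fun q : ℝ × P => Φ q.1 q.2) q (0, (1, 0))) (t, y) := by
    funext y
    exact dx_eq h t y
  rw [h1, dx_gen _ ((diff_dir h _).differentiable (by simp)), second h]

theorem dyy_eq (h : Tst Φ) (t : ℝ) (x : P) :
    dy (dy (Φ t)) x = fderiv ℝ (fderiv ℝ (fun q : ℝ × P => Φ q.1 q.2)) (t, x)
      (0, (0, 1)) (0, (0, 1)) := by
  have h1 : dy (Φ t) = fun y => (fun q : ℝ × P =>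
      fderiv ℝ (fun q : ℝ × P => Φ q.1 q.2) q (0, (0, 1))) (t, y) := by
    funext y
    exact dy_eq h t y
  rw [h1, dy_gen _ ((diff_dir h _).differentiable (by simp)), second h]

theorem norm_e1 : ‖((1, 0) : ℝ × P)‖ = 1 := by
  simp [Prod.norm_def]

theorem norm_e2 : ‖((0, (1, 0)) : ℝ × P)‖ = 1 := by
  simp [Prod.norm_def]

theorem norm_e3 : ‖((0, (0, 1)) : ℝ × P)‖ = 1 := by
  simp [Prod.norm_def]

theorem bd1 {G : ℝ × P → ℝ} {q e : ℝ × P} {C : ℝ} (he : ‖e‖ = 1)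
    (h : ‖iteratedFDeriv ℝ 1 G q‖ ≤ C) : |fderiv ℝ G q e| ≤ C := by
  rw [norm_iteratedFDeriv_one] at h
  have h1 := (fderiv ℝ G q).le_opNorm e
  rw [he, mul_one] at h1
  exact (h1.trans h)

theorem bd2 {G : ℝ × P → ℝ} {q e : ℝ × P} {C : ℝ} (he : ‖e‖ = 1)
    (h : ‖iteratedFDeriv ℝ 2 G q‖ ≤ C) : |fderiv ℝ (fderiv ℝ G) q e e| ≤ C := by
  have h0 : ‖fderiv ℝ (fderiv ℝ G) q‖ ≤ C := by
    rw [← norm_iteratedFDeriv_one, norm_iteratedFDeriv_fderiv]
    exact h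
  have h1 := (fderiv ℝ (fderiv ℝ G) q).le_opNorm e
  rw [he, mul_one] at h1
  have h2 := (fderiv ℝ (fderiv ℝ G) q e).le_opNorm e
  rw [he, mul_one] at h2
  exact h2.trans (h1.trans h0)

end

/-- **S_TBD.** -/
theorem tbd : S_TBD := by
  intro R C Φ h
  have hT : Tst Φ := h.toTst
  have hc1 : Continuous (fderiv ℝ (fun q : ℝ × P => Φ q.1 q.2)) :=
    hT.smooth.continuous_fderiv (by simp)
  have hc2 : Continuous (fderiv ℝ (fderiv ℝ (fun q : ℝ × P => Φ q.1 q.2))) := by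
    have h1 : ContDiff ℝ 1 (fderiv ℝ (fun q : ℝ × P => Φ q.1 q.2)) :=
      hT.smooth.fderiv_right (by norm_cast)
    exact h1.continuous_fderiv (by simp)
  refine ⟨⟨hT.smooth.continuous, ?_, ?_, ?_, ?_⟩, ?_⟩
  · refine (hc1.clm_apply (continuous_const (y := ((1, 0) : ℝ × P)))).congr fun q => ?_
    exact (dt_eq hT q.1 q.2).symm
  · refine (hc1.clm_apply (continuous_const (y := ((0, (1, 0)) : ℝ × P)))).congr fun q => ?_
    exact (dx_eq hT q.1 q.2).symm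
  · refine (hc1.clm_apply (continuous_const (y := ((0, (0, 1)) : ℝ × P)))).congr fun q => ?_
    exact (dy_eq hT q.1 q.2).symm
  · refine (((hc2.clm_apply (continuous_const (y := ((0, (1, 0)) : ℝ × P)))).clm_apply
      (continuous_const (y := ((0, (1, 0)) : ℝ × P)))).add
      ((hc2.clm_apply (continuous_const (y := ((0, (0, 1)) : ℝ × P)))).clm_apply
      (continuous_const (y := ((0, (0, 1)) : ℝ × P))))).congr fun q => ?_
    unfold lap
    rw [dxx_eq hT, dyy_eq hT]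
    rfl
  · intro t x h0 h1
    refine ⟨?_, ?_, ?_, ?_, ?_⟩
    · have h2 := h.bd 0 (by norm_num) t x h0 h1
      rw [norm_iteratedFDeriv_zero] at h2
      exact h2
    · rw [dt_eq hT]
      exact bd1 norm_e1 (h.bd 1 (by norm_num) t x h0 h1)
    · rw [dx_eq hT]
      exact bd1 norm_e2 (h.bd 1 (by norm_num) t x h0 h1)
    · rw [dy_eq hT]
      exact bd1 norm_e3 (h.bd 1 (by norm_num) t x h0 h1)
    · unfold lap
      rw [dxx_eq hT, dyy_eq hT]
      have h2 := bd2 norm_e2 (h.bd 2 (by norm_num) t x h0 h1)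
      have h3 := bd2 norm_e3 (h.bd 2 (by norm_num) t x h0 h1)
      refine (abs_add_le _ _).trans ?_
      linarith

end Pool.Agent.Q124.AD
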